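import Pool.Agent.MWGX.StmtsA
import Pool.Agent.MWGR.DefsC
import Pool.Agent.Helper22_MWGQ.PWX

/-!
# MWGX: from the exact period to its multiples (helper70)

If `d` is the exact period and `d ∣ n` then the systems `LitM d` and `Reg d` imply `LitM n`, `Reg n`.
-/

set_option autoImplicit false

namespace Pool.Agent.Helper70_MWGX

open Pool.Agent.Helper14_MV Pool.Agent.Helper2_MV
open Pool.Agent.MWGQ (pw Gn)
open Pool.Agent.MWGR (X It Kaba F1 Dm Ec Es Ea Al0 Rh)
open Pool.Agent.MWGX (FlxStmt DmlStmt DgrStmt EamStmt Dl)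

/-! ### powers -/

theorem pw_rep (x k : ℕ) : pw k [x] = List.replicate k x := by
  induction k with
  | zero => simp [pw]
  | succ k ih => rw [Pool.Agent.MWGX.pw_succ, ih, List.replicate_succ]; rfl

/-- `x^a ≈ x^b` for `a, b ≥ 2` -/
theorem p1 {d : ℕ} {β : FIC} (hG : Gn d β) (x a b : ℕ) (ha : 2 ≤ a) (hb : 2 ≤ b)
    (h : a ≡ b [MOD d]) : RR β (List.replicate a x) (List.replicate b x) := by
  have := (Pool.Agent.MWGQ.H22.pwx d β hG).1 [x] a b ha hb h
  rwa [pw_rep, pw_rep] at this

/-- `x u x^a v ≈ x u x^b v` for `a, b ≥ 1` -/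
theorem p2 {d : ℕ} {β : FIC} (hG : Gn d β) (x : ℕ) (p u v : List ℕ) (a b : ℕ) (ha : 1 ≤ a)
    (hb : 1 ≤ b) (h : a ≡ b [MOD d]) :
    RR β (p ++ x :: (u ++ (List.replicate a x ++ v)))
      (p ++ x :: (u ++ (List.replicate b x ++ v))) := by
  have h1 := (Pool.Agent.MWGQ.H22.pwx d β hG).2.1 [x] u a b ha hb h
  rw [pw_rep, pw_rep] at h1
  have h2 := (RR.refl (β := β) p).append (h1.append (RR.refl v))
  simpa [List.append_assoc] using h2

theorem dmod {d n : ℕ} (h : d ∣ n) : n ≡ d [MOD d] :=
  ((Nat.modEq_zero_iff_dvd).2 h).trans ((Nat.modEq_zero_iff_dvd).2 (dvd_refl d)).symm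

/-! ### `It` -/

theorem it_mul {d : ℕ} {S : FIC} (h : It d (RR S)) (k : ℕ) : It (d * k) (RR S) := by
  induction k with
  | zero =>
    intro p w w' q x _
    simpa using RR.refl (β := S) (p ++ x :: (w ++ (w' ++ x :: q)))
  | succ k ih =>
    intro p w w' q x hm
    have h1 := ih p w w' q x hm
    have hm2 : MVO.Sys.Mul (w ++ (List.replicate (d * k) x ++ w'))
        (p ++ x :: (w ++ ((List.replicate (d * k) x ++ w') ++ x :: q))) := by
      intro l hl
      have hx : 2 ≤ (p ++ x :: (w ++ ((List.replicate (d * k) x ++ w') ++ x :: q))).count x := by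
        simp [List.count_append, List.count_cons]; omega
      by_cases hlx : l = x
      · rw [hlx]; exact hx
      · have hl2 : l ∈ w ++ w' := by
          simp only [List.mem_append, List.mem_replicate] at hl ⊢
          rcases hl with h | ⟨-, h⟩ | h
          · exact Or.inl h
          · exact absurd h hlx
          · exact Or.inr h
        have h3 := hm l hl2
        refine le_trans h3 ?_
        simp only [List.count_append, List.count_cons]
        omega
    have h2 := h p w (List.replicate (d * k) x ++ w') q x hm2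
    have e : List.replicate d x ++ (List.replicate (d * k) x ++ w') =
        List.replicate (d * (k + 1)) x ++ w' := by
      rw [← List.append_assoc, List.replicate_append_replicate]
      congr 2
      rw [Nat.mul_succ]; omega
    have h3 : RR S (p ++ x :: (w ++ (List.replicate (d * k) x ++ (w' ++ x :: q))))
        (p ++ x :: (w ++ (List.replicate (d * (k + 1)) x ++ (w' ++ x :: q)))) := by
      have h4 := h2
      simp only [List.append_assoc] at h4 e
      rw [show (List.replicate d x ++ (List.replicate (d * k) x ++ (w' ++ x :: q))) =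
        List.replicate (d * (k + 1)) x ++ (w' ++ x :: q) by
          rw [← List.append_assoc, List.replicate_append_replicate]
          congr 2
          rw [Nat.mul_succ]; omega] at h4
      exact h4
    exact S.trans h1 h3

/-! ### exponents around a letter -/

/-- the transposition of `0` and `x` -/
def tr (x d : ℕ) : List ℕ := if d = 0 then [x] else if d = x then [0] else [d]

theorem tr_tr (x : ℕ) (u : List ℕ) : (u.flatMap (tr x)).flatMap (tr x) = u := by
  induction u with
  | nil => rfl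
  | cons c u ih =>
    rw [List.flatMap_cons, List.flatMap_append, ih]
    have : (tr x c).flatMap (tr x) = [c] := by
      unfold tr
      by_cases h0 : c = 0
      · subst h0
        by_cases hx : x = 0
        · subst hx; simp
        · simp [hx]
      · by_cases hc : c = x
        · subst hc; simp [h0]
        · simp [h0, hc]
    rw [this]; rfl

theorem tr_rep (x k : ℕ) : (List.replicate k x).flatMap (tr x) = X k := by
  rw [Pool.Agent.MWGX.flat_rep]
  have : tr x x = [0] := by unfold tr; by_cases h : x = 0 <;> simp [h]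
  rw [this, pw_rep]

theorem tr_cons (x a : ℕ) : ∃ a', tr x a = [a'] := by
  unfold tr
  by_cases h0 : a = 0
  · exact ⟨x, by simp [h0]⟩
  · by_cases hx : a = x
    · exact ⟨0, by simp [h0, hx]⟩
    · exact ⟨a, by simp [h0, hx]⟩

theorem tr_mem {x a a' : ℕ} {R : List ℕ} (h : tr x a = [a']) (hR : a ∈ R) :
    a' ∈ R.flatMap (tr x) := List.mem_flatMap.2 ⟨a, hR, by rw [h]; simp⟩

/-- **exponents around a multiple letter**, any heavy letter -/
theorem flx' (hF : FlxStmt) {n : ℕ} {θ : FIC} (hI : It n (RR θ)) (x a i j i' j' : ℕ)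
    (P R : List ℕ) (hi : 1 ≤ i) (hj : 1 ≤ j) (hi' : 1 ≤ i') (hj' : 1 ≤ j')
    (h1 : i ≡ i' [MOD n]) (h2 : j ≡ j' [MOD n]) (ha : a ∈ R) :
    RR θ (P ++ (List.replicate i x ++ a :: (List.replicate j x ++ R)))
      (P ++ (List.replicate i' x ++ a :: (List.replicate j' x ++ R))) := by
  obtain ⟨a', ha'⟩ := tr_cons x a
  have h := hF n θ hI a' i j i' j' (P.flatMap (tr x)) (R.flatMap (tr x)) hi hj hi' hj' h1 h2
    (tr_mem ha' ha)
  have h3 := h.sub (tr x)
  have key : ∀ k l : ℕ, ((P.flatMap (tr x)) ++ (X k ++ a' :: (X l ++ R.flatMap (tr x)))) =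
      (P ++ (List.replicate k x ++ a :: (List.replicate l x ++ R))).flatMap (tr x) := by
    intro k l
    simp only [List.flatMap_append, List.flatMap_cons, tr_rep, ha']
    rfl
  rw [key i j, key i' j', tr_tr, tr_tr] at h3
  exact h3

/-- three exponents -/
theorem flx3 (hF : FlxStmt) {n : ℕ} {θ : FIC} (hI : It n (RR θ))
    (x a b i j k i' j' k' : ℕ) (P R : List ℕ) (hi : 1 ≤ i) (hj : 1 ≤ j) (hk : 1 ≤ k)
    (hi' : 1 ≤ i') (hj' : 1 ≤ j') (hk' : 1 ≤ k') (h1 : i ≡ i' [MOD n]) (h2 : j ≡ j' [MOD n])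
    (h3 : k ≡ k' [MOD n]) (ha : a ∈ R) (hb : b ∈ R) :
    RR θ (P ++ (List.replicate i x ++ a :: (List.replicate j x ++ b :: (List.replicate k x ++ R))))
      (P ++ (List.replicate i' x ++ a :: (List.replicate j' x ++ b ::
        (List.replicate k' x ++ R)))) := by
  have s1 := flx' hF hI x a i j i' j' P (b :: (List.replicate k x ++ R)) hi hj hi' hj' h1 h2
    (by simp [ha])
  have s2 := flx' hF hI x b j' k j' k' (P ++ (List.replicate i' x ++ [a])) R hj' hk hj' hk'
    (Nat.ModEq.refl _) h3 hb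
  have s3 : RR θ (P ++ (List.replicate i' x ++ a :: (List.replicate j' x ++ b ::
      (List.replicate k x ++ R)))) (P ++ (List.replicate i' x ++ a :: (List.replicate j' x ++ b ::
        (List.replicate k' x ++ R)))) := by
    simpa [List.append_assoc] using s2
  exact θ.trans s1 s3

/-! ### the systems -/

section
variable {d n : ℕ} {β : FIC}

theorem per_n (hG : Gn d β) (hd : d ∣ n) : MWZ.Per n (RR β) := by
  refine p1 hG 0 2 (n + 2) le_rfl (by omega) ?_
  have := (dmod hd).trans ((Nat.modEq_zero_iff_dvd).2 (dvd_refl d))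
  simpa using (this.add_right 2).symm

theorem ga_n (hG : Gn d β) (hd : d ∣ n) : MWZ.Ga n (RR β) := by
  have h0 := (dmod hd).trans ((Nat.modEq_zero_iff_dvd).2 (dvd_refl d))
  have h1 : (1 : ℕ) ≡ n + 1 [MOD d] := by simpa using (h0.add_right 1).symm
  have h2 := p2 hG 0 [] [1] [] 1 (n + 1) le_rfl (by omega) h1
  simp only [List.nil_append, List.append_nil, List.cons_append] at h2
  exact h2

theorem rn_n (hG : Gn d β) (hd : d ∣ n) (hn : 1 ≤ n) (h : MWGP.Rn d (RR β)) :
    MWGP.Rn n (RR β) := by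
  have h1 : n + 1 ≡ d + 1 [MOD d] := (dmod hd).add_right 1
  have hdp := hG.pos
  have a0 := p1 hG 0 (n + 1) (d + 1) (by omega) (by omega) h1
  have a1 := p1 hG 1 (n + 1) (d + 1) (by omega) (by omega) h1
  exact β.trans (a0.append a1) (β.trans h (a1.append a0).symm)

theorem it_n (hd : d ∣ n) (h : It d (RR β)) : It n (RR β) := by
  obtain ⟨k, rfl⟩ := hd
  exact it_mul h k

theorem bg_n (hG : Gn d β) (hd : d ∣ n) (hn : 1 ≤ n) (h : MWGR.BG d (RR β)) :
    MWGR.BG n (RR β) where
  pos := hn
  per := per_n hG hd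
  ga := ga_n hG hd
  rn := rn_n hG hd hn h.rn
  f := h.f
  it := it_n hd h.it

/-- **M1** -/
theorem litm_n (hG : Gn d β) (hd : d ∣ n) (hn : 1 ≤ n) (h : MWGP.LitM d (RR β)) :
    MWGP.LitM n (RR β) where
  pos := hn
  per := per_n hG hd
  ga := ga_n hG hd
  rn := rn_n hG hd hn h.rn
  f := h.f
  i1 := by
    intro p c q x hm
    have h1 := h.i1 p c q x hm
    have hdp := hG.pos
    have h2 := p1 hG x (d + 1) (n + 1) (by omega) (by omega) ((dmod hd).add_right 1).symm
    exact β.trans h1 ((RR.refl p).append (h2.append (RR.refl _)))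
  i2 := h.i2

theorem dm_n (hF : FlxStmt) (hI : It d (RR β)) (hdp : 1 ≤ d) (hd : d ∣ n) (hn : 1 ≤ n) {m : ℕ}
    (h : Dm d m (RR β)) : Dm n m (RR β) := by
  have e := dmod hd
  have s1 := flx' hF hI 0 1 (n + m) n (d + m) d [] [2, 1] (by omega) hn (by omega) hdp
    (e.add_right m) e (by simp)
  have s2 := flx' hF hI 0 1 n (n + m) d (d + m) [] [2, 1] hn (by omega) hdp (by omega)
    e (e.add_right m) (by simp)
  exact β.trans s1 (β.trans h s2.symm)

theorem neg_mod {d n c : ℕ} (hd : d ∣ n) (hdp : 1 ≤ d) (hn : 1 ≤ n) :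
    n + (n - 1) * c ≡ d + (d - 1) * c [MOD d] := by
  obtain ⟨k, rfl⟩ := hd
  have hk : 1 ≤ k := by
    rcases Nat.eq_zero_or_pos k with h | h
    · simp [h] at hn
    · exact h
  have h1 : (d * k - 1) * c + c = d * k * c := by
    have : d * k - 1 + 1 = d * k := by omega
    calc (d * k - 1) * c + c = (d * k - 1 + 1) * c := by ring
      _ = d * k * c := by rw [this]
  have h2 : (d - 1) * c + c = d * c := by
    have : d - 1 + 1 = d := by omega
    calc (d - 1) * c + c = (d - 1 + 1) * c := by ring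
      _ = d * c := by rw [this]
  have h3 : (d * k - 1) * c + c ≡ (d - 1) * c + c [MOD d] := by
    rw [h1, h2]
    exact ((Nat.modEq_zero_iff_dvd).2 ⟨k * c, by ring⟩).trans
      ((Nat.modEq_zero_iff_dvd).2 ⟨c, rfl⟩).symm
  exact Nat.ModEq.add (dmod (dvd_mul_right d k)) (Nat.ModEq.add_right_cancel' c h3)

theorem ec_n (hF : FlxStmt) (hI : It d (RR β)) (hdp : 1 ≤ d) (hd : d ∣ n) (hn : 1 ≤ n)
    {c : ℕ} {T : List ℕ} (h1 : 1 ∈ T) (h2 : 2 ∈ T) (h : Ec d c T (RR β)) : Ec n c T (RR β) := by
  have e := dmod hd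
  have s1 := flx3 hF hI 0 1 2 n (n + c) n d (d + c) d [] T hn (by omega) hn hdp (by omega) hdp
    e (e.add_right c) e h1 h2
  have s2 := flx3 hF hI 0 2 1 (n + c) (n + (n - 1) * c) (n + c) (d + c) (d + (d - 1) * c) (d + c)
    [] T (by omega) (by omega) (by omega) (by omega) (by omega) (by omega)
    (e.add_right c) (neg_mod hd hdp hn) (e.add_right c) h2 h1
  exact β.trans s1 (β.trans h s2.symm)

theorem f1_n (hG : Gn d β) (hd : d ∣ n) (hn : 1 ≤ n) (h : F1 d (RR β)) : F1 n (RR β) := by
  have s := p2 hG 0 [0] [2] [3, 0, 0] d n hG.pos hn (dmod hd).symm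
  exact β.trans h s

theorem al_n (hG : Gn d β) (hd : d ∣ n) (hn : 1 ≤ n) (h : Al0 d (RR β)) : Al0 n (RR β) := by
  have s := p2 hG 0 [0] [1] [2, 1] d n hG.pos hn (dmod hd).symm
  exact β.trans h s

theorem rh_n (hG : Gn d β) (hd : d ∣ n) (hn : 1 ≤ n) (h : Rh d (RR β)) : Rh n (RR β) := by
  have s := p2 hG 0 [] [2] [1, 0, 0, 3, 1] d n hG.pos hn (dmod hd).symm
  exact β.trans h s

theorem fe_n (hF : FlxStmt) (hI : It d (RR β)) (hdp : 1 ≤ d) (hd : d ∣ n) (hn : 1 ≤ n)
    {c : ℕ} (h : MWGR.FE d c (RR β)) : MWGR.FE n c (RR β) := by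
  intro p q w r x a b hxa hxb hab hm
  have e := dmod hd
  have hm2 : MVO.Sys.Mul w (p ++ (List.replicate d x ++ a :: (List.replicate (d + c) x ++
      b :: (List.replicate d x ++ (q ++ a :: (w ++ b :: r)))))) := by
    intro l hl
    have h3 := hm l hl
    by_cases hlx : l = x
    · rw [hlx] at hl ⊢
      have : 1 ≤ w.count x := List.one_le_count_iff.2 hl
      simp only [List.count_append, List.count_cons, List.count_replicate_self] at h3 ⊢
      omega
    · simp only [List.count_append, List.count_cons, List.count_replicate] at h3 ⊢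
      have : (x == l) = false := by simpa using fun h => hlx h.symm
      simp only [this] at h3 ⊢
      simpa using h3
  have h0 := h p q w r x a b hxa hxb hab hm2
  have ma : a ∈ q ++ a :: (w ++ b :: r) := by simp
  have mb : b ∈ q ++ a :: (w ++ b :: r) := by simp
  have s1 := flx3 hF hI x a b n (n + c) n d (d + c) d p (q ++ a :: (w ++ b :: r)) hn (by omega)
    hn hdp (by omega) hdp e (e.add_right c) e ma mb
  have s2 := flx3 hF hI x b a (n + c) (n + (n - 1) * c) (n + c) (d + c) (d + (d - 1) * c) (d + c)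
    p (q ++ a :: (w ++ b :: r)) (by omega) (by omega) (by omega) (by omega) (by omega) (by omega)
    (e.add_right c) (neg_mod hd hdp hn) (e.add_right c) mb ma
  exact β.trans s1 (β.trans h0 s2.symm)

/-- **the region without mixing** -/
theorem reg_n (hF : FlxStmt) (hD : DgrStmt) (hE : EamStmt) (hG : Gn d β) (hd : d ∣ n)
    (hn : 1 ≤ n) (h : MWGR.Reg d (RR β)) : MWGR.Reg n (RR β) where
  toBG := bg_n hG hd hn h.toBG
  k := h.k
  fe := by
    rcases h.fe with h1 | ⟨h1, h2⟩
    · exact Or.inl (fe_n hF h.it hG.pos hd hn h1)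
    · refine Or.inr ⟨f1_n hG hd hn h1, ?_⟩
      rcases h2 with h2 | h2
      · exact Or.inl (al_n hG hd hn h2)
      · exact Or.inr (rh_n hG hd hn h2)
  hall := by
    intro q r hqr hco
    have hdp := hG.pos
    have e1 : Nat.gcd q d * Nat.gcd r d = d := by
      have h1 : Nat.gcd d (q * r) = Nat.gcd d q * Nat.gcd d r := Nat.Coprime.gcd_mul d hco
      rw [hqr, Nat.gcd_eq_left hd] at h1
      rw [Nat.gcd_comm q d, Nat.gcd_comm r d]
      exact h1.symm
    have hc2 : Nat.Coprime (Nat.gcd q d) (Nat.gcd r d) :=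
      (Nat.Coprime.coprime_dvd_left (Nat.gcd_dvd_left q d) hco).coprime_dvd_right
        (Nat.gcd_dvd_left r d)
    rcases h.hall _ _ e1 hc2 with h1 | h1
    · left
      obtain ⟨δ, hδ⟩ := hD d β hdp h.it
      have h2 : δ ∣ Nat.gcd r d := (hδ.iff _).1 h1
      have h3 : Dm d r (RR β) := (hδ.iff _).2 (h2.trans (Nat.gcd_dvd_left r d))
      exact dm_n hF h.it hdp hd hn h3
    · right
      have hq : 1 ≤ q := by
        rcases Nat.eq_zero_or_pos q with h0 | h0
        · rw [h0, Nat.zero_mul] at hqr; omega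
        · exact h0
      obtain ⟨k, hk⟩ := Nat.gcd_dvd_left q d
      have hk1 : 1 ≤ k := by
        rcases Nat.eq_zero_or_pos k with h0 | h0
        · rw [h0, Nat.mul_zero] at hk; omega
        · exact h0
      have h2 := (hE d β hdp h.it _ h1).1 k hk1
      rw [Nat.mul_comm, ← hk] at h2
      exact ec_n hF h.it hdp hd hn (by simp) (by simp) h2

end

end Pool.Agent.Helper70_MWGX
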