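import Pool.Agent.MWGX.StmtsA
import Pool.Agent.Helper70_MWGX.Prd

/-!
# MWGX, row DI2 (helper70)
-/

set_option autoImplicit false

namespace Pool.Agent.Helper70_MWGX

open Pool.Agent.Helper14_MV Pool.Agent.Helper2_MV
open Pool.Agent.MWGQ (pw Gn)
open Pool.Agent.MWGR (X It Kaba F1 Dm Ec Es Ea Al0 Rh)
open Pool.Agent.MWGX (FlxStmt DmlStmt DgrStmt EamStmt Dl CrxStmt NrwStmt Di2Stmt)

/-- `CRX` for any heavy letter -/
theorem crx' (hC : CrxStmt) {n : ℕ} {θ : FIC} (hn : 1 ≤ n) (hI : It n (RR θ)) {d : ℕ}
    (hD : Dm n d (RR θ)) (x a i j i' j' : ℕ)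
    (P R : List ℕ) (hi : 1 ≤ i) (hj : 1 ≤ j) (hi' : 1 ≤ i') (hj' : 1 ≤ j')
    (h1 : i ≡ i' + d [MOD n]) (h2 : i + j ≡ i' + j' [MOD n]) (ha : a ∈ R) :
    RR θ (P ++ (List.replicate i x ++ a :: (List.replicate j x ++ R)))
      (P ++ (List.replicate i' x ++ a :: (List.replicate j' x ++ R))) := by
  obtain ⟨a', ha'⟩ := tr_cons x a
  have h := hC n θ hn hI d hD a' i j i' j' (P.flatMap (tr x)) (R.flatMap (tr x)) hi hj hi' hj' h1 h2
    (tr_mem ha' ha)
  have h3 := h.sub (tr x)
  have key : ∀ k l : ℕ, ((P.flatMap (tr x)) ++ (X k ++ a' :: (X l ++ R.flatMap (tr x)))) =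
      (P ++ (List.replicate k x ++ a :: (List.replicate l x ++ R))).flatMap (tr x) := by
    intro k l
    simp only [List.flatMap_append, List.flatMap_cons, tr_rep, ha']
    rfl
  rw [key i j, key i' j', tr_tr, tr_tr] at h3
  exact h3

/-- moving `x` to the left over one letter -/
theorem mv1 (hC : CrxStmt) (hN : NrwStmt) {n : ℕ} {β : FIC} (hG : Gn n β) (hI : It n (RR β))
    (hD : Dm n 1 (RR β)) (p c d q : List ℕ) (x z : ℕ)
    (hm : MVO.Sys.Mul (c ++ (z :: d)) (p ++ x :: (c ++ (z :: x :: (d ++ x :: q))))) :
    RR β (p ++ x :: (c ++ (z :: x :: (d ++ x :: q))))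
      (p ++ x :: (c ++ (x :: z :: (d ++ x :: q)))) := by
  by_cases hzx : z = x
  · rw [hzx]; exact RR.refl _
  have hn := hG.pos
  by_cases hzV : z ∈ p ++ x :: c
  · have h := hN n β hG (p ++ x :: c) [z, x] [x, z] (d ++ x :: q)
      (by
        intro l hl
        simp only [List.mem_cons, List.not_mem_nil, or_false] at hl
        rcases hl with rfl | rfl
        · exact hzV
        · simp)
      (by
        intro l
        constructor
        · simp [or_comm]
        · have : [z, x].count l = [x, z].count l := by
            simp only [List.count_cons, List.count_nil]; omega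
          rw [this])
    simpa [List.append_assoc] using h
  -- `z` occurs behind
  have hzR : z ∈ d ++ x :: q := by
    have h2 := hm z (by simp)
    have h3 : (p ++ x :: c).count z = 0 := List.count_eq_zero.2 hzV
    by_contra hcon
    have h4 : (d ++ x :: q).count z = 0 := List.count_eq_zero.2 hcon
    have e : p ++ x :: (c ++ (z :: x :: (d ++ x :: q))) =
        (p ++ x :: c) ++ ([z, x] ++ (d ++ x :: q)) := by simp
    have h5 : [z, x].count z = 1 := by
      have : (x == z) = false := by simpa using fun h => hzx h.symm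
      simp [List.count_cons, this]
    have h6 : ∀ A B C : List ℕ, (A ++ (B ++ C)).count z = A.count z + (B.count z + C.count z) := by
      intro A B C
      rw [List.count_append, List.count_append]
    rw [e, h6, h3, h4, h5] at h2
    omega
  -- multiplicities
  have hmc : ∀ (w : List ℕ), (∀ l, (p ++ x :: (c ++ (z :: x :: (d ++ x :: q)))).count l ≤
      w.count l) → MVO.Sys.Mul (c ++ (z :: d)) w := fun w hw l hl => le_trans (hm l hl) (hw l)
  -- insert `x^n` in front of `z`
  have s1 : RR β (p ++ x :: (c ++ (z :: x :: (d ++ x :: q))))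
      (p ++ x :: (c ++ (List.replicate n x ++ (z :: x :: (d ++ x :: q))))) := by
    have hm1 : MVO.Sys.Mul (c ++ [z]) (p ++ x :: (c ++ ([z] ++ x :: (d ++ x :: q)))) := by
      intro l hl
      have hl2 : l ∈ c ++ (z :: d) := by
        simp only [List.mem_append, List.mem_cons, List.not_mem_nil, or_false] at hl ⊢
        tauto
      simpa using hm l hl2
    have := hI p c [z] (d ++ x :: q) x hm1
    simpa using this
  -- the same with exponents
  have nrw : ∀ (U : List ℕ) (R : List ℕ) (a b : ℕ), x ∈ U → 1 ≤ a → 1 ≤ b → a ≡ b [MOD n] →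
      RR β (U ++ (List.replicate a x ++ R)) (U ++ (List.replicate b x ++ R)) := by
    intro U R a b hU ha hb hab
    obtain ⟨U1, U2, rfl⟩ := List.append_of_mem hU
    have h := p2 hG x U1 U2 R a b ha hb hab
    simpa [List.append_assoc] using h
  have hxV : x ∈ p ++ x :: c := by simp
  have s2 : RR β (p ++ x :: (c ++ (List.replicate n x ++ (z :: x :: (d ++ x :: q)))))
      (p ++ x :: (c ++ (List.replicate n x ++ (z :: (List.replicate (n + 1) x ++
        (d ++ x :: q)))))) := by
    have h := nrw (p ++ x :: (c ++ (List.replicate n x ++ [z]))) (d ++ x :: q) 1 (n + 1)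
      (by simp) le_rfl (by omega) (by simp [Nat.ModEq])
    simpa [List.append_assoc] using h
  have s3 : RR β (p ++ x :: (c ++ (List.replicate n x ++ (z :: (List.replicate (n + 1) x ++
        (d ++ x :: q)))))) (p ++ x :: (c ++ (List.replicate (n + 1) x ++ (z ::
          (List.replicate n x ++ (d ++ x :: q)))))) := by
    have h := crx' hC hn hI hD x z (n + 1) n n (n + 1) (p ++ x :: c) (d ++ x :: q) (by omega) hn hn
      (by omega) (Nat.ModEq.refl _) (by rw [Nat.add_comm]) hzR
    have h' := h.symm
    simpa [List.append_assoc] using h'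
  have s4 : RR β (p ++ x :: (c ++ (List.replicate (n + 1) x ++ (z ::
          (List.replicate n x ++ (d ++ x :: q))))))
      (p ++ x :: (c ++ (List.replicate (n + 1) x ++ (z :: (d ++ x :: q))))) := by
    have hm1 : MVO.Sys.Mul ([z] ++ d) ((p ++ x :: (c ++ List.replicate n x)) ++
        x :: ([z] ++ (d ++ x :: q))) := by
      intro l hl
      by_cases hlx : l = x
      · rw [hlx]
        simp only [List.count_append, List.count_cons, beq_self_eq_true, if_true]
        omega
      · have hl2 : l ∈ c ++ (z :: d) := by
          simp only [List.mem_append, List.mem_cons, List.not_mem_nil, or_false] at hl ⊢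
          tauto
        have h5 := hm l hl2
        have hx : (x == l) = false := by simpa using fun h => hlx h.symm
        simp only [List.count_append, List.count_cons, List.count_replicate, hx, List.count_nil]
          at h5 ⊢
        simp at h5 ⊢
        omega
    have h := (hI (p ++ x :: (c ++ List.replicate n x)) [z] d q x hm1).symm
    have e : List.replicate (n + 1) x = List.replicate n x ++ [x] := by
      rw [List.replicate_succ']
    rw [e]
    simpa [List.append_assoc] using h
  have s5 : RR β (p ++ x :: (c ++ (List.replicate (n + 1) x ++ (z :: (d ++ x :: q)))))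
      (p ++ x :: (c ++ (x :: z :: (d ++ x :: q)))) := by
    have h := nrw (p ++ x :: c) (z :: (d ++ x :: q)) (n + 1) 1 (by simp) (by omega) le_rfl
      (by simp [Nat.ModEq])
    simpa [List.append_assoc] using h
  exact β.trans s1 (β.trans s2 (β.trans s3 (β.trans s4 s5)))

/-- **DI2** -/
theorem di2 (hC : CrxStmt) (hN : NrwStmt) : Di2Stmt := by
  intro n β hG hI
  constructor
  · intro p c q x hm
    have hm1 : MVO.Sys.Mul ([] ++ c) (p ++ x :: ([] ++ (c ++ x :: q))) := by
      simpa using hm
    have h := hI p [] c q x hm1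
    have e : p ++ (List.replicate (n + 1) x ++ (c ++ x :: q)) =
        p ++ x :: ([] ++ (List.replicate n x ++ (c ++ x :: q))) := by
      rw [List.replicate_succ]; rfl
    rw [e]
    exact h
  · intro hD
    have key : ∀ (c p d q : List ℕ) (x : ℕ),
        MVO.Sys.Mul (c ++ d) (p ++ x :: (c ++ x :: (d ++ x :: q))) →
        RR β (p ++ x :: (c ++ x :: (d ++ x :: q))) (p ++ x :: x :: (c ++ (d ++ x :: q))) := by
      intro c
      induction c using List.reverseRecOn with
      | nil => intro p d q x _; exact RR.refl _
      | append_singleton c z ih =>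
        intro p d q x hm
        have hm1 : MVO.Sys.Mul (c ++ (z :: d)) (p ++ x :: (c ++ (z :: x :: (d ++ x :: q)))) := by
          simpa [List.append_assoc] using hm
        have h1 := mv1 hC hN hG hI hD p c d q x z hm1
        have hm2 : MVO.Sys.Mul (c ++ (z :: d)) (p ++ x :: (c ++ x :: ((z :: d) ++ x :: q))) := by
          intro l hl
          have := hm1 l hl
          simp only [List.count_append, List.count_cons, List.cons_append] at this ⊢
          omega
        have h2 := ih p (z :: d) q x hm2
        have e1 : p ++ x :: (c ++ [z] ++ x :: (d ++ x :: q)) =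
            p ++ x :: (c ++ (z :: x :: (d ++ x :: q))) := by simp
        have e2 : p ++ x :: x :: (c ++ [z] ++ (d ++ x :: q)) =
            p ++ x :: x :: (c ++ ((z :: d) ++ x :: q)) := by simp
        rw [e1, e2]
        exact β.trans h1 h2
    intro p c d q x hm
    exact key c p d q x hm

end Pool.Agent.Helper70_MWGX
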