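import Pool.Agent.Helper10_MWGX.FLX
import Pool.Agent.Helper12_MWGX.MC2
import Pool.Agent.Helper13_MWGX.EI1
import Pool.Agent.Helper13_MWGX.MC1
import Pool.Agent.Helper15_MWGX.EAK
import Pool.Agent.Helper15_MWGX.WCG
import Pool.Agent.Helper19_MWGX.EI4
import Pool.Agent.Helper19_MWGX.SA2
import Pool.Agent.Helper1_MWGX.XCH
import Pool.Agent.Helper22_MWGQ.PWX
import Pool.Agent.Helper23_MWGQ.CNT
import Pool.Agent.Helper23_MWGX.MIP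
import Pool.Agent.Helper23_MWGX.SPL
import Pool.Agent.Helper25_MWGX.MPG
import Pool.Agent.Helper2_MWGX.CTX
import Pool.Agent.Helper2_MWGX.DML
import Pool.Agent.Helper30_MWGX.REG
import Pool.Agent.Helper30_MWGX.SPY
import Pool.Agent.Helper32_MWGX.CVK
import Pool.Agent.Helper32_MWGX.ESV
import Pool.Agent.Helper33_MWGX.MC3
import Pool.Agent.Helper33_MWGX.PN4
import Pool.Agent.Helper34_MWGX.FG1
import Pool.Agent.Helper34_MWGX.PN2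
import Pool.Agent.Helper35_MWGX.KEG
import Pool.Agent.Helper35_MWGX.SKK
import Pool.Agent.Helper36_MWGX.PEG
import Pool.Agent.Helper37_MWGQ.TLR
import Pool.Agent.Helper37_MWGQ.WCV
import Pool.Agent.Helper39_MWGX.ABV
import Pool.Agent.Helper3_MWGX.EXL
import Pool.Agent.Helper41_MWGX.EI3
import Pool.Agent.Helper43_MWGX.LBW
import Pool.Agent.Helper45_MWGX.KZX
import Pool.Agent.Helper46_MWGX.CVG
import Pool.Agent.Helper46_MWGX.EAV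
import Pool.Agent.Helper47_MWGX.VCG
import Pool.Agent.Helper4_MWGX.DGR
import Pool.Agent.Helper4_MWGX.HZG
import Pool.Agent.Helper50_MWGX.FG2
import Pool.Agent.Helper50_MWGX.PN3
import Pool.Agent.Helper51_MWGX.EAT
import Pool.Agent.Helper52_MWGX.CRX
import Pool.Agent.Helper53_MWGX.KES
import Pool.Agent.Helper54_MWGN.Comp
import Pool.Agent.Helper58_MWGQ.CLS
import Pool.Agent.Helper58_MWGX.MIA
import Pool.Agent.Helper5_MWGQ.NOR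
import Pool.Agent.Helper60_MWGX.SKZ
import Pool.Agent.Helper62_MWGX.FEW
import Pool.Agent.Helper62_MWGX.RHP
import Pool.Agent.Helper64_MWGX.INS
import Pool.Agent.Helper66_MWGX.CLG
import Pool.Agent.Helper66_MWGX.EI2
import Pool.Agent.Helper6_MWGQ.OLR
import Pool.Agent.Helper70_MWGX.DI2
import Pool.Agent.Helper75_MWGX.NRW
import Pool.Agent.Helper76_MWGX.LBV
import Pool.Agent.Helper77_MWGX.OXV
import Pool.Agent.Helper7_MWGX.DMI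
import Pool.Agent.Helper7_MWGX.EXS
import Pool.Agent.Helper7_MWGX.NOE
import Pool.Agent.Helper80_MWGQ.PRB
import Pool.Agent.Helper81_MWGQ.NOB
import Pool.Agent.Helper81_MWGX.EAM
import Pool.Agent.Helper81_MWGX.F1K
import Pool.Agent.Helper81_MWGX.SA1
import Pool.Agent.Helper88_MWGX.FEP
import Pool.Agent.Helper89_MWGX.GLG
import Pool.Agent.Helper89_MWGX.ZES
import Pool.Agent.Helper8_MWGX.NTH
import Pool.Agent.Helper92_MWGX.PN1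
import Pool.Agent.Helper93_MWGX.EXO
import Pool.Agent.Helper94_MWGX.KZV
import Pool.Agent.Helper95_MWGQ.TLW
import Pool.Agent.Helper95_MWGX.SPG
import Pool.Agent.Helper97_MWGX.XCG
import Pool.Agent.Helper98_MWGX.RNG

/-!
# Composition of the rows of block MWGX (helper70)
-/

namespace Pool.Agent.Helper70_MWGX.Comp

theorem mwgx_flx : Pool.Agent.MWGX.FlxStmt :=
  Pool.Agent.MWGX.H10.flx

theorem mwgx_dgr : Pool.Agent.MWGX.DgrStmt :=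
  Pool.Agent.MWGX.H4.dgr mwgx_flx

theorem mwgq_pwx : Pool.Agent.MWGQ.PwxStmt :=
  Pool.Agent.MWGQ.H22.pwx

theorem mwgq_cls : Pool.Agent.MWGQ.ClsStmt :=
  Pool.Agent.MWGQ.H58.cls mwgq_pwx

theorem mwgq_cnt : Pool.Agent.MWGQ.CntStmt :=
  Pool.Agent.MWGQ.H23.cnt

theorem mwgq_olr : Pool.Agent.MWGQ.OlrStmt :=
  Pool.Agent.MWGQ.H6.olr mwgq_cls mwgq_cnt

theorem mwgx_oxv : Pool.Agent.MWGX.OxvStmt :=
  Pool.Agent.MWGX.H77.oxv mwgq_olr mwgq_cnt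

theorem mwgx_lbv : Pool.Agent.MWGX.LbvStmt :=
  Pool.Agent.MWGX.H76.lbv mwgx_flx mwgq_pwx mwgq_cnt

theorem mwgx_lbw : Pool.Agent.MWGX.LbwStmt :=
  Pool.Agent.MWGX.H43.lbw mwgx_oxv mwgx_lbv

theorem mwgx_spl : Pool.Agent.MWGX.SplStmt :=
  Pool.Agent.MWGX.H23.spl

theorem mwgx_eat : Pool.Agent.MWGX.EatStmt :=
  Pool.Agent.MWGX.H51.eat mwgx_spl

theorem mwgx_crx : Pool.Agent.MWGX.CrxStmt :=
  Pool.Agent.MWGX.H52.crx mwgx_flx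

theorem mwgx_dml : Pool.Agent.MWGX.DmlStmt :=
  Pool.Agent.MWGX.H2.dml mwgx_crx

theorem mwgx_xch : Pool.Agent.MWGX.XchStmt :=
  Pool.Agent.MWGX.H1.xch mwgx_flx mwgq_cnt mwgx_lbv mwgx_dml

theorem mwgx_nrw : Pool.Agent.MWGX.NrwStmt :=
  Pool.Agent.MWGX.H75.nrw mwgq_pwx

theorem mwgx_eav : Pool.Agent.MWGX.EavStmt :=
  Pool.Agent.MWGX.H46.eav mwgx_eat mwgx_xch mwgq_pwx mwgq_cnt mwgx_nrw

theorem mwgx_eak : Pool.Agent.MWGX.EakStmt :=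
  Pool.Agent.MWGX.H15.eak

theorem mwgx_abv : Pool.Agent.MWGX.AbvStmt :=
  Pool.Agent.MWGX.H39.abv mwgq_pwx mwgx_oxv

theorem mwgx_f1k : Pool.Agent.MWGX.F1kStmt :=
  Pool.Agent.MWGX.HNN.f1k mwgq_pwx

theorem mwgx_exs : Pool.Agent.MWGX.ExsStmt :=
  Pool.Agent.MWGX.H7.exs

theorem mwgx_exl : Pool.Agent.MWGX.ExlStmt :=
  Pool.Agent.MWGX.H3.exl

theorem mwgx_exo : Pool.Agent.MWGX.ExoStmt :=
  Pool.Agent.MWGX.H93.exo mwgx_exs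

theorem mwgx_dmi : Pool.Agent.MWGX.DmiStmt :=
  Pool.Agent.MWGX.H7.dmi

theorem mwgx_skk : Pool.Agent.MWGX.SkkStmt :=
  Pool.Agent.MWGX.H35.skk

theorem mwgx_ei1 : Pool.Agent.MWGX.Ei1Stmt :=
  Pool.Agent.MWGX.H13.ei1 mwgx_crx

theorem mwgx_pn1 : Pool.Agent.MWGX.Pn1Stmt :=
  Pool.Agent.MWGX.H92.pn1 mwgx_dgr mwgx_oxv mwgx_lbw mwgx_eav mwgx_eak mwgx_abv mwgx_f1k mwgx_exs mwgx_exl mwgx_exo mwgx_dmi mwgx_skk mwgx_ei1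

theorem mwgx_esv : Pool.Agent.MWGX.EsvStmt :=
  Pool.Agent.MWGX.H32.esv mwgx_oxv mwgq_cnt mwgx_spl mwgx_xch mwgx_nrw

theorem mwgx_ins : Pool.Agent.MWGX.InsStmt :=
  Pool.Agent.MWGX.H64.ins

theorem mwgx_kes : Pool.Agent.MWGX.KesStmt :=
  Pool.Agent.MWGX.H53.kes

theorem mwgx_ei2 : Pool.Agent.MWGX.Ei2Stmt :=
  Pool.Agent.MWGX.H66.ei2 mwgq_pwx

theorem mwgx_pn2 : Pool.Agent.MWGX.Pn2Stmt :=
  Pool.Agent.MWGX.H34.pn2 mwgx_dgr mwgx_oxv mwgx_lbw mwgx_esv mwgx_abv mwgx_exs mwgx_exl mwgx_exo mwgx_ins mwgx_kes mwgx_skk mwgx_ei2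

theorem mwgx_rhp : Pool.Agent.MWGX.RhpStmt :=
  Pool.Agent.MWGX.H62.rhp mwgq_pwx

theorem mwgq_tlw : Pool.Agent.MWGQ.TlwStmt :=
  Pool.Agent.MWGQ.H95.tlw mwgq_pwx mwgq_cnt

theorem mwgq_tlr : Pool.Agent.MWGQ.TlrStmt :=
  Pool.Agent.MWGQ.H37.tlr mwgq_olr mwgq_tlw mwgq_cnt

theorem mwgx_kzv : Pool.Agent.MWGX.KzvStmt :=
  Pool.Agent.MWGX.H94.kzv mwgx_oxv mwgq_tlr

theorem mwgx_kzx : Pool.Agent.MWGX.KzxStmt :=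
  Pool.Agent.MWGX.H45.kzx mwgx_exs

theorem mwgx_zes : Pool.Agent.MWGX.ZesStmt :=
  Pool.Agent.MWGX.H89.zes

theorem mwgx_skz : Pool.Agent.MWGX.SkzStmt :=
  Pool.Agent.MWGX.H60.skz

theorem mwgx_ei3 : Pool.Agent.MWGX.Ei3Stmt :=
  Pool.Agent.MWGX.H41.ei3 mwgq_pwx

theorem mwgx_pn3 : Pool.Agent.MWGX.Pn3Stmt :=
  Pool.Agent.MWGX.H50.pn3 mwgx_dgr mwgx_oxv mwgx_lbw mwgx_esv mwgx_rhp mwgx_kzv mwgx_kzx mwgx_exl mwgx_exo mwgx_ins mwgx_zes mwgx_skz mwgx_ei3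

theorem mwgx_eam : Pool.Agent.MWGX.EamStmt :=
  Pool.Agent.MWGX.HNN.eam mwgx_flx mwgx_dml

theorem mwgx_ei4 : Pool.Agent.MWGX.Ei4Stmt :=
  Pool.Agent.MWGX.H19.ei4 mwgx_dgr mwgx_eam

theorem mwgx_nth : Pool.Agent.MWGX.NthStmt :=
  Pool.Agent.MWGX.H8.nth

theorem mwgx_pn4 : Pool.Agent.MWGX.Pn4Stmt :=
  Pool.Agent.MWGX.H33.pn4 mwgx_dgr mwgx_oxv mwgx_lbw mwgx_eav mwgx_abv mwgx_eam mwgx_exs mwgx_exl mwgx_exo mwgx_dmi mwgx_skk mwgx_ei4 mwgx_nth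

theorem mwgx_di2 : Pool.Agent.MWGX.Di2Stmt :=
  Pool.Agent.Helper70_MWGX.di2 mwgx_crx mwgx_nrw

theorem mwgx_reg : Pool.Agent.MWGX.RegStmt :=
  Pool.Agent.MWGX.H30.reg mwgx_pn1 mwgx_pn2 mwgx_pn3 mwgx_pn4 mwgx_rhp mwgx_di2

theorem mwgq_wcv : Pool.Agent.MWGQ.WcvStmt :=
  Pool.Agent.MWGQ.H37.wcv mwgq_olr mwgq_tlr mwgq_cnt

theorem mwgx_noe : Pool.Agent.MWGX.NoeStmt :=
  Pool.Agent.MWGX.H7.noe Pool.Agent.MWGN.Comp.noa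

theorem mwgx_xcg : Pool.Agent.MWGX.XcgStmt :=
  Pool.Agent.MWGX.H97.xcg mwgx_xch

theorem mwgq_nor : Pool.Agent.MWGQ.NorStmt :=
  Pool.Agent.MWGQ.H5.nor

theorem mwgq_nob : Pool.Agent.MWGQ.NobStmt :=
  Pool.Agent.MWGQ.H81.nob mwgq_pwx

theorem mwgx_rng : Pool.Agent.MWGX.RngStmt :=
  Pool.Agent.MWGX.H98.rng

theorem mwgx_spg : Pool.Agent.MWGX.SpgStmt :=
  Pool.Agent.MWGX.H95.spg mwgx_oxv mwgq_wcv mwgx_noe mwgx_xcg mwgq_nor mwgq_nob Pool.Agent.MWGN.Comp.dst mwgx_rng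

theorem mwgx_mia : Pool.Agent.MWGX.MiaStmt :=
  Pool.Agent.MWGX.H58.mia mwgq_pwx

theorem mwgx_mip : Pool.Agent.MWGX.MipStmt :=
  Pool.Agent.MWGX.H23.mip mwgq_pwx

theorem mwgx_keg : Pool.Agent.MWGX.KegStmt :=
  Pool.Agent.MWGX.H35.keg mwgx_mia mwgx_mip

theorem mwgx_vcg : Pool.Agent.MWGX.VcgStmt :=
  Pool.Agent.MWGX.H47.vcg mwgx_oxv mwgx_lbw mwgq_wcv mwgx_spg mwgx_keg

theorem mwgq_prb : Pool.Agent.MWGQ.PrbStmt :=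
  Pool.Agent.MWGQ.H80.prb

theorem mwgx_sa1 : Pool.Agent.MWGX.Sa1Stmt :=
  Pool.Agent.MWGX.H81.sa1 Pool.Agent.MWGN.Comp.prf mwgq_prb

theorem mwgx_sa2 : Pool.Agent.MWGX.Sa2Stmt :=
  Pool.Agent.MWGX.H19.sa2 Pool.Agent.MWGN.Comp.prf mwgq_prb

theorem mwgx_fg1 : Pool.Agent.MWGX.Fg1Stmt :=
  Pool.Agent.MWGX.H34.fg1

theorem mwgx_fg2 : Pool.Agent.MWGX.Fg2Stmt :=
  Pool.Agent.MWGX.H50.fg2

theorem mwgx_glg : Pool.Agent.MWGX.GlgStmt :=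
  Pool.Agent.MWGX.H89.glg

theorem mwgx_wcg : Pool.Agent.MWGX.WcgStmt :=
  Pool.Agent.MWGX.H15.wcg mwgx_exs mwgx_exl mwgx_glg

theorem mwgx_spy : Pool.Agent.MWGX.SpyStmt :=
  Pool.Agent.MWGX.H30.spy mwgx_exo

theorem mwgx_mpg : Pool.Agent.MWGX.MpgStmt :=
  Pool.Agent.MWGX.H25.mpg

theorem mwgx_cvk : Pool.Agent.MWGX.CvkStmt :=
  Pool.Agent.MWGX.H32.cvk

theorem mwgx_cvg : Pool.Agent.MWGX.CvgStmt :=
  Pool.Agent.MWGX.H46.cvg mwgx_mpg mwgx_cvk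

theorem mwgx_mc1 : Pool.Agent.MWGX.Mc1Stmt :=
  Pool.Agent.MWGX.H13.mc1 mwgx_fg1 mwgx_cvg

theorem mwgx_hzg : Pool.Agent.MWGX.HzgStmt :=
  Pool.Agent.MWGX.H4.hzg mwgx_mpg

theorem mwgx_mc2 : Pool.Agent.MWGX.Mc2Stmt :=
  Pool.Agent.MWGX.H12.mc2 mwgx_fg1 mwgx_cvg mwgx_mpg mwgx_hzg

theorem mwgx_mc3 : Pool.Agent.MWGX.Mc3Stmt :=
  Pool.Agent.MWGX.H33.mc3 mwgx_fg2 mwgx_cvg mwgx_mpg mwgx_hzg

theorem mwgx_clg : Pool.Agent.MWGX.ClgStmt :=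
  Pool.Agent.MWGX.H66.clg mwgx_fg1 mwgx_fg2 mwgx_wcg mwgx_spy mwgx_mc1 mwgx_mc2 mwgx_mc3

theorem mwgx_peg : Pool.Agent.MWGX.PegStmt :=
  Pool.Agent.MWGX.H36.peg mwgx_dgr mwgx_vcg mwgx_sa1 mwgx_sa2 mwgx_clg

theorem mwgx_ctx : Pool.Agent.MWGX.CtxStmt :=
  Pool.Agent.MWGX.H2.ctx mwgq_pwx

theorem mwgx_few : Pool.Agent.MWGX.FewStmt :=
  Pool.Agent.MWGX.H62W.few mwgx_ctx

theorem mwgx_fep : Pool.Agent.MWGX.FepStmt :=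
  Pool.Agent.MWGX.H88.fep mwgx_peg mwgx_few mwgx_di2

end Pool.Agent.Helper70_MWGX.Comp
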