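import Pool.Agent.Helper70_MWGX.Comp
import Pool.Agent.Helper70_MWGX.Prd

/-!
# Necessity of the region in the gamma world, all periods (helper70)

A modular variety of the gamma world (exact period `d`) outside `x²y ≈ x²yx^d`, with the insertions
`It` and the exchanges `F`, satisfies the system M1 or the system of the region without mixing; both
pass from the exact period to its multiples.
-/

set_option autoImplicit false

namespace Pool.Agent.Helper70_MWGX

open Pool.Agent.Helper14_MV Pool.Agent.Helper2_MV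
open Pool.Agent.MWGQ (Gn E0)
open Pool.Agent.MWGR (It Dm)

/-- **necessity of the region**, exact period -/
theorem region {n : ℕ} {β : FIC} (hM : ModF β) (hG : Gn n β) (hE : ¬ E0 n β)
    (hI : It n (RR β)) (hF : MVO.Sys.F (RR β)) :
    MWGP.LitM n (RR β) ∨ MWGR.Reg n (RR β) := by
  by_cases hD : Dm n 1 (RR β)
  · obtain ⟨h1, h2⟩ := Comp.mwgx_di2 n β hG hI
    exact Or.inl ⟨hG.pos, hG.per, hG.gm, hG.c, hF, h1, h2 hD⟩
  · exact Comp.mwgx_reg n β hM hG hE hI hF
      (fun hS => Comp.mwgx_fep n β hM hG hI hD hS)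

/-- **necessity of the region**, for a multiple of the exact period -/
theorem region_n {d n : ℕ} {β : FIC} (hn : 1 ≤ n) (hd : d ∣ n) (hM : ModF β) (hG : Gn d β)
    (hE : ¬ E0 d β) (hI : It d (RR β)) (hF : MVO.Sys.F (RR β)) :
    MWGP.LitM n (RR β) ∨ MWGR.Reg n (RR β) := by
  rcases region hM hG hE hI hF with h | h
  · exact Or.inl (litm_n hG hd hn h)
  · exact Or.inr (reg_n Comp.mwgx_flx Comp.mwgx_dgr Comp.mwgx_eam hG hd hn h)

end Pool.Agent.Helper70_MWGX
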